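import Pool.Agent.helper38.ZT.All
import Pool.Agent.helper38.BA.Main
import Pool.Agent.helper1.TA.IVA
import Pool.Agent.helper1.TA.N1R
import Pool.Agent.helper1.TA.N2R
import Pool.Agent.helper1.TA.RZV
import Pool.Agent.helper1.TA.ZIT
import Pool.Agent.helper14.TA.GIA
import Pool.Agent.helper14.TA.NCA
import Pool.Agent.helper18.TA.VCL
import Pool.Agent.helper22.TA.LAT
import Pool.Agent.helper23.TA.DNR
import Pool.Agent.helper23.TA.FPR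
import Pool.Agent.helper24.TA.NTA
import Pool.Agent.helper24.TA.NWA
import Pool.Agent.helper26.TA.BNE
import Pool.Agent.helper26.TA.CHG
import Pool.Agent.helper26.TA.GDT
import Pool.Agent.helper26.TA.GGS
import Pool.Agent.helper29.TA.GBA
import Pool.Agent.helper31.TA.EXA
import Pool.Agent.helper32.TA.ZET
import Pool.Agent.helper33.TA.SEQ
import Pool.Agent.helper38.TA.U2R
import Pool.Agent.helper38.TA.UWR
import Pool.Agent.helper45.TA.FRT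
import Pool.Agent.helper49.TA.MKJ
import Pool.Agent.helper50.TA.URR
import Pool.Agent.helper55.TA.GDA
import Pool.Agent.helper62.TA.GVT
import Pool.Agent.helper62.TA.PHB
import Pool.Agent.helper62.TA.PKA
import Pool.Agent.helper62.TA.VCD
import Pool.Agent.helper63.TA.GTR
import Pool.Agent.helper63.TA.SBR
import Pool.Agent.helper63.TA.SMR
import Pool.Agent.helper65.TA.FTT
import Pool.Agent.helper73.TA.GXR
import Pool.Agent.helper73.TA.STR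
import Pool.Agent.helper79.TA.INA
import Pool.Agent.helper83.TA.ITR
import Pool.Agent.helper85.TA.GVR
import Pool.Agent.helper88.TA.PHC
import Pool.Agent.helper88.TA.TAU
import Pool.Agent.helper88.TA.VCS
import Pool.Agent.helper92.TA.STG
import Pool.Agent.helper99.TA.ZVT

/-!
# Project TA: assembly
-/

set_option autoImplicit false

namespace Pool.Agent.TA

theorem ta_BNE : BNE_stmt := BNE
theorem ta_CHG : CHG_stmt := CHG
theorem ta_GXR : GXR_stmt := GXR Pool.Agent.BA.LG Pool.Agent.BA.a_SO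
theorem ta_SBR : SBR_stmt := SBR ta_GXR Pool.Agent.BA.BW
theorem ta_GTR : GTR_stmt := GTR Pool.Agent.BA.BW
theorem ta_SMR : SMR_stmt := SMR ta_SBR ta_GTR Pool.Agent.BA.BW
theorem ta_UWR : UWR_stmt := UWR ta_GXR Pool.Agent.BA.BW
theorem ta_U2R : U2R_stmt := U2R ta_UWR ta_GTR Pool.Agent.BA.BW
theorem ta_N1R : N1R_stmt := N1R ta_U2R Pool.Agent.BA.LM Pool.Agent.BA.a_LS Pool.Agent.BA.a_PS Pool.Agent.BA.BW
theorem ta_URR : URR_stmt := URR ta_GXR ta_GTR Pool.Agent.BA.RG Pool.Agent.BA.BW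
theorem ta_N2R : N2R_stmt := N2R ta_URR Pool.Agent.BA.a_P2 Pool.Agent.BA.a_PS Pool.Agent.BA.LM Pool.Agent.BA.BW
theorem ta_DNR : DNR_stmt := DNR ta_SMR ta_N1R ta_N2R Pool.Agent.BA.HB Pool.Agent.BA.a_PS Pool.Agent.BA.LM
theorem ta_INA : INA_stmt := INA Pool.Agent.ZT.zt_L1B Pool.Agent.ZT.zt_BNW
theorem ta_GBA : GBA_stmt := GBA ta_INA Pool.Agent.ZT.zt_ABL
theorem ta_GDA : GDA_stmt := GDA
theorem ta_IVA : IVA_stmt := IVA ta_GDA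
theorem ta_NTA : NTA_stmt := NTA ta_GBA ta_GDA Pool.Agent.ZT.zt_ABL
theorem ta_NCA : NCA_stmt := NCA ta_IVA ta_NTA ta_GDA Pool.Agent.ZT.zt_NRH Pool.Agent.ZT.zt_BNW
theorem ta_GIA : GIA_stmt := GIA ta_GBA ta_GDA ta_NCA Pool.Agent.ZT.zt_BNW Pool.Agent.BA.BW
theorem ta_NWA : NWA_stmt := NWA ta_GIA ta_GDA Pool.Agent.ZT.zt_SMV Pool.Agent.ZT.zt_NLH Pool.Agent.ZT.zt_CMD Pool.Agent.BA.a_PS Pool.Agent.BA.BW
theorem ta_EXA : EXA_stmt := EXA ta_NWA Pool.Agent.ZT.zt_NIT Pool.Agent.ZT.zt_ETF Pool.Agent.ZT.zt_CEN Pool.Agent.ZT.zt_CNV Pool.Agent.ZT.zt_PRS Pool.Agent.ZT.zt_LTW Pool.Agent.ZT.zt_CMD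
theorem ta_STR : STR_stmt := STR Pool.Agent.BA.LM
theorem ta_ITR : ITR_stmt := ITR ta_STR Pool.Agent.BA.LM
theorem ta_FPR : FPR_stmt := FPR ta_DNR ta_ITR Pool.Agent.BA.a_PS Pool.Agent.BA.LM
theorem ta_STG : STG_stmt := STG
theorem ta_GGS : GGS_stmt := GGS ta_STG
theorem ta_PHB : PHB_stmt := PHB ta_GGS Pool.Agent.BA.a_KC Pool.Agent.BA.a_KD Pool.Agent.BA.GI
theorem ta_SEQ : SEQ_stmt := SEQ ta_GGS ta_PHB ta_BNE
theorem ta_MKJ : MKJ_stmt := MKJ Pool.Agent.BA.a_KB Pool.Agent.BA.a_KC Pool.Agent.BA.a_KD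
theorem ta_VCD : VCD_stmt := VCD Pool.Agent.BA.a_KC Pool.Agent.BA.a_KD
theorem ta_VCS : VCS_stmt := VCS ta_MKJ ta_VCD Pool.Agent.BA.a_KC Pool.Agent.BA.a_KD
theorem ta_VCL : VCL_stmt := VCL Pool.Agent.BA.a_KB Pool.Agent.BA.a_KD Pool.Agent.BA.GI
theorem ta_GDT : GDT_stmt := GDT ta_VCD Pool.Agent.ZT.zt_FDP Pool.Agent.BA.a_FD
theorem ta_LAT : LAT_stmt := LAT ta_CHG ta_VCS ta_VCL ta_VCD ta_GDT Pool.Agent.ZT.zt_FDP Pool.Agent.BA.a_KB Pool.Agent.BA.a_KD Pool.Agent.BA.a_FD Pool.Agent.BA.GI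
theorem ta_PKA : PKA_stmt := PKA Pool.Agent.BA.a_KB Pool.Agent.BA.a_KC Pool.Agent.BA.a_KD
theorem ta_PHC : PHC_stmt := PHC ta_PKA ta_PHB ta_VCD Pool.Agent.BA.a_KC Pool.Agent.BA.a_KD
theorem ta_TAU : TAU_stmt := TAU ta_PHC ta_GDT Pool.Agent.ZT.zt_BNW
theorem ta_GVR : GVR_stmt := GVR ta_LAT ta_GDT ta_TAU Pool.Agent.ZT.zt_BNW Pool.Agent.BA.BW
theorem ta_ZVT : ZVT_stmt := ZVT ta_VCD Pool.Agent.ZT.zt_ZCH
theorem ta_RZV : RZV_stmt := RZV ta_ZVT Pool.Agent.ZT.zt_ZCF Pool.Agent.BA.LM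
theorem ta_FRT : FRT_stmt := FRT ta_SEQ ta_GVR ta_FPR ta_RZV (Pool.Agent.BA.SE (Pool.Agent.BA.PWA Pool.Agent.SK.sk_PNW Pool.Agent.SK.sk_WNF)) Pool.Agent.BA.a_PS Pool.Agent.BA.LM (Pool.Agent.BA.KER Pool.Agent.BA.a_KB Pool.Agent.BA.a_KC Pool.Agent.BA.a_KD) Pool.Agent.FL.a_ZFI
theorem ta_GVT : GVT_stmt := GVT ta_LAT ta_GDT ta_TAU Pool.Agent.ZT.zt_BNW
theorem ta_ZET : ZET_stmt := ZET
theorem ta_ZIT : ZIT_stmt := ZIT ta_ZET ta_ZVT Pool.Agent.ZT.zt_ZCI Pool.Agent.ZT.zt_ZCF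
theorem ta_FTT : FTT_stmt := FTT ta_SEQ ta_GVT ta_EXA ta_ZIT Pool.Agent.ZT.zt_DNB Pool.Agent.ZT.zt_CMD (Pool.Agent.BA.KER Pool.Agent.BA.a_KB Pool.Agent.BA.a_KC Pool.Agent.BA.a_KD)

end Pool.Agent.TA
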