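import Pool.Agent.helper38.TA.Defs

/-!
# Project TA, block A: block G of ZT (and GFI, NWI, EXE) for an abstract space of complex test functions

Rules: see SpecK.lean. Every row of this file is an existing proof of project ZT with `gC μ j v` replaced by `g j v`, `MC μ L v` by
`MX n L (g 0 v)`, `GS μ a j v x` by `GX g a j v x`, and the facts GDC, GVC by the fields of `TSC`: copy the file named in the docstring and adapt it.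
The general rows of ZT (ABL, L1B, BNW, NRH, SMV, NLH, NIT, ETF, CEN, CNV, PRS, LTW, CMD) are used as they are.
-/

set_option autoImplicit false

open Complex MeasureTheory Set

namespace Pool.Agent.TA

open Pool.Agent.BA (Par GG kl kf vf fV Bw Den PP wt lam gpf rgz)
open Pool.Agent.ZT (fP Bn NN Cen GF hm Sqf cmf lamA muA prm Eta NwD Cof thC LaC LfC FEQ Prs)

/-- **INA** (short-medium; adapt Pool/Agent/helper14/ZT/INC.lean). uses: ZT.L1B, ZT.BNW. -/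
def INA_stmt : Prop := ∀ (n : ℕ) (V : Type) [AddCommGroup V] [Module ℝ V] (g : ℕ → V → ℝ → ℂ) (C₁ : ℝ), TSC n V g C₁ →
  ∃ C : ℝ, 0 < C ∧ ∀ (L : ℝ) (v : V), 1 ≤ L → ∀ Y : ℝ, 0 < Y → ∀ j : ℕ, 1 ≤ j → j ≤ 2 →
  ∫ y in Y..(2 * Y), ‖g j v y‖ ≤ C * (max 1 Y) ^ (7 * (j : ℝ) / 50) * MX n L (g 0 v)

/-- **GDA** (short-medium; adapt Pool/Agent/helper43/ZT/GSD.lean). -/
def GDA_stmt : Prop := ∀ (n : ℕ) (V : Type) [AddCommGroup V] [Module ℝ V] (g : ℕ → V → ℝ → ℂ) (C₁ C₀ : ℝ) (a b : ℕ → ℂ),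
  TSC n V g C₁ → Cen n C₀ a b →
  (∀ (j : ℕ) (v : V) (x : ℝ), 0 < x → Summable (fun d : ℕ => ‖a d * g j v (d * x)‖)) ∧
  (∀ (j : ℕ) (v : V) (x : ℝ), 0 < x → HasDerivAt (GX g a j v) (GX g a (j + 1) v x / x) x) ∧
  (∀ (j : ℕ) (v : V) (σ : ℝ), 3 ≤ σ → ∃ C : ℝ, ∀ x : ℝ, 0 < x → ‖GX g a j v x‖ ≤ C * x ^ (-σ)) ∧
  (∀ (j : ℕ) (v w : V) (x : ℝ), 0 < x → GX g a j (v + w) x = GX g a j v x + GX g a j w x) ∧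
  ∀ (j : ℕ) (c : ℝ) (v : V) (x : ℝ), 0 < x → GX g a j (c • v) x = (c : ℂ) * GX g a j v x

/-- **GBA** (short-medium; adapt Pool/Agent/helper14/ZT/GSB.lean). uses: INA, ZT.ABL. -/
def GBA_stmt : Prop := ∀ (n : ℕ) (V : Type) [AddCommGroup V] [Module ℝ V] (g : ℕ → V → ℝ → ℂ) (C₁ C₀ : ℝ), TSC n V g C₁ →
  ∃ C : ℝ, 0 < C ∧ ∀ a b : ℕ → ℂ, Cen n C₀ a b → ∀ (L : ℝ) (v : V) (x : ℝ), 1 ≤ L → 0 < x →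
  (x ≤ 1 → ‖GX g a 0 v x‖ ≤ C * x ^ (-(3 / 5) : ℝ) * MX n L (g 0 v) ∧ ‖GX g a 1 v x‖ ≤ C * x ^ (-(3 / 5) : ℝ) * MX n L (g 0 v)) ∧
  (1 ≤ x → ‖GX g a 0 v x‖ ≤ C * x ^ (-(43 / 50) : ℝ) * MX n L (g 0 v) ∧
    ‖GX g a 1 v x‖ ≤ C * x ^ (-(18 / 25) : ℝ) * MX n L (g 0 v))

/-- **IVA** (short-medium; adapt Pool/Agent/helper43/ZT/INV.lean). uses: GDA. -/
def IVA_stmt : Prop := ∀ (n : ℕ) (V : Type) [AddCommGroup V] [Module ℝ V] (g : ℕ → V → ℝ → ℂ) (C₁ C₀ : ℝ) (a b : ℕ → ℂ),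
  TSC n V g C₁ → Cen n C₀ a b → ∀ (v : V) (x : ℝ), 0 < x →
  Summable (fun d : ℕ => ‖b d * GX g a 0 v (d * x)‖) ∧ ∑' d : ℕ, b d * GX g a 0 v (d * x) = g 0 v x

/-- **NTA** (short-medium; adapt Pool/Agent/helper72/ZT/NRT.lean). uses: GBA, GDA, ZT.ABL. -/
def NTA_stmt : Prop := ∀ (n : ℕ) (V : Type) [AddCommGroup V] [Module ℝ V] (g : ℕ → V → ℝ → ℂ) (C₁ C₀ x₁ : ℝ), TSC n V g C₁ →
  0 < x₁ → x₁ ≤ 1 → ∃ C : ℝ, 0 < C ∧ ∀ D₀ : ℝ, 1 / x₁ ≤ D₀ → ∀ a b : ℕ → ℂ, Cen n C₀ a b → ∀ (L : ℝ) (v : V) (x : ℝ), 1 ≤ L → x₁ ≤ x →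
  ‖∑' d : ℕ, (if (d : ℝ) ≤ D₀ * max 1 x ^ 2 then 0 else b d * GX g a 0 v (d * x))‖ ≤
    C * D₀ ^ (-(21 / 100) : ℝ) * (max 1 x) ^ (-(57 / 50) : ℝ) * MX n L (g 0 v)

/-- **NCA** (short-medium; adapt Pool/Agent/helper14/ZT/NRC.lean). uses: IVA, NTA, GDA, ZT.NRH, ZT.BNW. -/
def NCA_stmt : Prop := ∀ (n : ℕ) (V : Type) [AddCommGroup V] [Module ℝ V] (g : ℕ → V → ℝ → ℂ) (C₁ C₀ : ℝ), TSC n V g C₁ →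
  ∃ x₁ : ℝ, 0 < x₁ ∧ x₁ ≤ 1 ∧ ∃ C L₀ : ℝ, 0 < C ∧ 1 ≤ L₀ ∧
  ∀ a b : ℕ → ℂ, Cen n C₀ a b → ∀ (L : ℝ) (v : V), L₀ ≤ L → ∀ x₂ : ℝ, 0 < x₂ → x₂ ≤ x₁ →
  MX n L (g 0 v) ≤ C * L ^ n * NN L x₂ (GX g a 0 v)

/-- **GIA** (short-medium; adapt Pool/Agent/helper43/ZT/GFI.lean). uses: GBA, GDA, NCA, ZT.BNW, BA.BW. The last item is the bound for `MX` instead of the one for `τ`. -/
def GIA_stmt : Prop := ∀ (n : ℕ) (V : Type) [AddCommGroup V] [Module ℝ V] (g : ℕ → V → ℝ → ℂ) (C₁ C₀ ρm : ℝ), TSC n V g C₁ → 1 ≤ ρm →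
  ∃ x₀ : ℝ, 0 < x₀ ∧ x₀ ≤ 1 ∧
  ∀ x₁ : ℝ, 0 < x₁ → x₁ ≤ x₀ → ∃ C : ℝ, 0 < C ∧ ∃ q₀ : ℝ, ∀ q : ℝ, q₀ ≤ q → ∀ ρ : ℝ, 1 ≤ ρ → ρ ≤ ρm → ∀ a b : ℕ → ℂ, Cen n C₀ a b → ∀ v : V,
  (∀ M : ℝ, NN (Real.log q) x₁ (fun x => GX g a 0 v (x / ρ)) ≤ M →
    GF x₁ q (q ^ (1 / 200 : ℝ)) M (fun x => GX g a 0 v (x / ρ)) (fun x => GX g a 1 v (x / ρ))) ∧
  ‖GX g a 0 v (1 / √q / ρ)‖ ≤ C * q ^ (3 / 10 : ℝ) * Real.log q ^ n * NN (Real.log q) x₁ (fun x => GX g a 0 v (x / ρ)) ∧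
  MX n (Real.log q) (g 0 v) ≤ C * Real.log q ^ n * NN (Real.log q) x₁ (fun x => GX g a 0 v (x / ρ))

/-- the vector of test functions at the integer `e` -/
noncomputable def TX {n F : ℕ} [NeZero F] {V : Type} (g : DirichletCharacter ℂ F → ℕ → V → ℝ → ℂ) (ω : DirichletCharacter ℂ F → ℂ)
    (a : DirichletCharacter ℂ F → ℕ → ℂ) (q : ℝ) (v : DirichletCharacter ℂ F → V) (e : ℕ) : ℂ :=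
  if e = 0 then 0 else ∑ χ : DirichletCharacter ℂ F, ω χ * prm χ e * GX (g χ) (a χ) 0 (v χ) (e / √(q * (χ.conductor : ℝ) ^ n))

/-- its norm -/
noncomputable def TM {n F : ℕ} [NeZero F] {V : Type} (g : DirichletCharacter ℂ F → ℕ → V → ℝ → ℂ)
    (a : DirichletCharacter ℂ F → ℕ → ℂ) (x₁ q : ℝ) (v : DirichletCharacter ℂ F → V) : ℝ :=
  √q * ∑ χ : DirichletCharacter ℂ F, NN (Real.log q) x₁ (fun x => GX (g χ) (a χ) 0 (v χ) (x / √((χ.conductor : ℝ) ^ n)))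

/-- **NWA** (medium; adapt Pool/Agent/helper13/ZT/NWI.lean). uses: GIA, GDA, ZT.SMV, ZT.NLH, ZT.CMD, BA.PS, BA.BW. The last item is the bound for `MX`. -/
def NWA_stmt : Prop := ∀ (n F : ℕ) [NeZero F] (V : Type) [AddCommGroup V] [Module ℝ V] (g : DirichletCharacter ℂ F → ℕ → V → ℝ → ℂ) (C₁ : ℝ)
  (ω : DirichletCharacter ℂ F → ℂ) (α : ℕ → Fin n → ℂ)
  (κ C₀ : ℝ) (N₀ : ℕ) (SA SB : (ZMod F)ˣ → ℕ → Finset ℕ) (S : ℕ → Finset ℕ) (u c : ℕ → ℂ), 1 ≤ n → (∀ χ, TSC n V (g χ) C₁) → (∀ χ, ‖ω χ‖ = 1) →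
  (∀ p, p.Prime → ∀ j, ‖α p j‖ ≤ 1) → Prs F κ N₀ SA SB S u → (∀ p, ‖c p‖ = 1) →
  (∀ N : ℕ, N₀ ≤ N → ∀ p ∈ S N, c p * ∑ j, α p j = (‖∑ j, α p j‖ : ℂ) * u p ∧ κ ≤ ‖∑ j, α p j‖) →
  ∃ x₁ C δ c₂ : ℝ, 0 < x₁ ∧ x₁ ≤ 1 ∧ 0 < C ∧ 0 < c₂ ∧ ∀ c' : ℝ, 0 < c' → c' ≤ c₂ → ∃ q₀ : ℝ, 1 < q₀ ∧ ∀ q : ℝ, q₀ ≤ q →
  ∀ (a b : DirichletCharacter ℂ F → ℕ → ℂ) (s : ℕ → ℂ), (∀ χ, Cen n C₀ (a χ) (b χ)) → (∀ p, s p = 1 ∨ s p = -1) →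
  ∃ T : (DirichletCharacter ℂ F → V) →ₗ[ℝ] (ℕ → ℂ), (∀ v e, T v e = TX (n := n) g ω a q v e) ∧
    NwD (DirichletCharacter ℂ F → V) T (TM (n := n) g a x₁ q) (wt S x₁ q) (fun p => if p.Prime then c p * s p * ∑ j, α p j else 0)
      (4 * n) C n δ (c' / Real.log q ^ 2) ∧
    (∀ v, ‖T v 1‖ ≤ q ^ (-(1 / 10) : ℝ) * TM (n := n) g a x₁ q v) ∧
    ∀ v χ, MX n (Real.log q) (g χ 0 (v χ)) * √q ≤ C * Real.log q ^ n * TM (n := n) g a x₁ q v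

/-- **EXA** (medium; adapt Pool/Agent/helper5/ZT/EXE.lean). uses: NWA, ZT.NIT, ZT.ETF, ZT.CEN, ZT.CNV, ZT.PRS, ZT.LTW, ZT.CMD. The functional `ψ v = ∑_χ Ψ χ (v χ) T`, `T = c₃ √q/L^(n+2)`, instead of `∑_χ τ_χ T`. -/
def EXA_stmt : Prop := ∀ (n F : ℕ) [NeZero F] (V : Type) [AddCommGroup V] [Module ℝ V] (g : DirichletCharacter ℂ F → ℕ → V → ℝ → ℂ) (C₁ : ℝ)
  (Ψ : DirichletCharacter ℂ F → V →ₗ[ℝ] ℝ) (ω : DirichletCharacter ℂ F → ℂ) (α : ℕ → Fin n → ℂ)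
  (κ₀ : ℝ) (N₀ : ℕ), 1 ≤ n → (∀ χ, TSC n V (g χ) C₁) → (∀ χ (L : ℝ) (v : V), 1 ≤ L → |Ψ χ v| ≤ C₁ * MX n L (g χ 0 v)) →
  (∀ χ, ‖ω χ‖ = 1) → (∀ p, p.Prime → ∀ j, ‖α p j‖ ≤ 1) → 0 < κ₀ →
  (∀ N : ℕ, N₀ ≤ N → ∀ a : (ZMod F)ˣ, ∃ P : Finset ℕ, (∀ p ∈ P, p.Prime ∧ N ^ 3 < p ∧ p < (N + 1) ^ 3 ∧
    (p : ZMod F) = (a : ZMod F) ∧ κ₀ ≤ ‖∑ j, α p j‖) ∧ κ₀ * (N : ℝ) ^ 2 / Real.log N ≤ (P.card : ℝ)) →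
  ∃ c₃ q₀ : ℝ, 0 < c₃ ∧ 1 < q₀ ∧ ∀ q : ℝ, q₀ ≤ q → ∃ ε : ℕ → ℂ, (∀ p, ‖ε p‖ = 1) ∧ ∀ (χ : DirichletCharacter ℂ F) (v : V),
    (∑' m : ℕ, ω χ * lamA α (fun p => ε p * prm χ p) m * g χ 0 v (m / √(q * (χ.conductor : ℝ) ^ n))).re =
      Ψ χ v * (c₃ * √q / Real.log q ^ (n + 2))

end Pool.Agent.TA
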