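import Pool.Agent.helper38.TA.Defs

/-!
# Project TA, block R: project BA for an abstract space of real test functions

Rules: see SpecK.lean. Every row of this file is an existing proof of project BA with `gV μ j c τ` replaced by `g j v`, `MB μ L c τ` by
`MY L (g 0 v)`, and the facts FD, VD, GV by the fields of `TSR`: copy the file named in the docstring and adapt it. The general rows of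
BA (LG, SO, BW, RG, LM, LS, PS, P2, HB) are used as they are. All sums over pairs `(c, τ)` become statements on one `v : V`.
-/

set_option autoImplicit false

open Complex MeasureTheory Set

namespace Pool.Agent.TA

open Pool.Agent.BA (Par GG kl kf vf fV Bw Den PP wt lam gpf rgz)

/-- **GTR** (short; adapt Pool/Agent/helper52/BA/GT.lean). uses: BA.BW. -/
def GTR_stmt : Prop := ∀ (V : Type) [AddCommGroup V] [Module ℝ V] (g : ℕ → V → ℝ → ℝ) (C₁ : ℝ), TSR V g C₁ → ∃ C : ℝ, 0 < C ∧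
  ∀ (L : ℝ) (v : V) (Y : ℝ), 1 ≤ L → 0 < Y →
  (Y ≤ 1 → ∫ x in Ioc 0 Y, Bw L x * |g 0 v x| ≤ C * Y ^ (7 / 20 : ℝ) * MY L (g 0 v)) ∧
  ∀ j : ℕ, j ≤ 3 → IntegrableOn (fun x => Bw L x * |g j v x| / x) (Ioi Y) ∧
    ∫ x in Ioi Y, Bw L x * |g j v x| / x ≤ C * (Y ^ (-(7 / 10) : ℝ) + Y ^ (-(1 / 20) : ℝ)) * MY L (g 0 v)

/-- **GXR** (short; adapt Pool/Agent/helper16/BA/GX.lean). uses: BA.LG, BA.SO. -/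
def GXR_stmt : Prop := ∀ (V : Type) [AddCommGroup V] [Module ℝ V] (g : ℕ → V → ℝ → ℝ) (C₁ : ℝ), TSR V g C₁ → ∀ (v : V) (α β : ℝ), 0 < α → α < β →
  (∀ x ∈ Icc α β, |g 0 v x| ≤ 2000 * (5 / Real.log (β / α) * (∫ y in α..β, |g 0 v y| / y) +
    Real.log (β / α) ^ 2 * ∫ y in α..β, |g 3 v y| / y)) ∧
  ∀ x1 ∈ Icc α β, ∀ x2 ∈ Icc α β, ∀ x3 ∈ Icc α β,
    Real.log x1 + Real.log (β / α) / 20 ≤ Real.log x2 → Real.log x2 + Real.log (β / α) / 20 ≤ Real.log x3 →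
    ∀ x ∈ Icc α β, |g 0 v x| ≤ 2000 * (|g 0 v x1| + |g 0 v x2| + |g 0 v x3| +
      Real.log (β / α) ^ 2 * ∫ y in α..β, |g 3 v y| / y)

/-- **SBR** (short-medium; adapt Pool/Agent/helper71/BA/SB.lean). uses: GXR, BA.BW. -/
def SBR_stmt : Prop := ∀ (V : Type) [AddCommGroup V] [Module ℝ V] (g : ℕ → V → ℝ → ℝ) (C₁ κ : ℝ) (N₀ : ℕ) (S : ℕ → Finset ℕ),
  TSR V g C₁ → Den κ N₀ S → ∃ C : ℝ, 0 < C ∧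
  ∀ (L r : ℝ) (N : ℕ) (v : V), 1 ≤ L → 0 < r → N₀ ≤ N → 6 ≤ N →
  ∫ x in ((N : ℝ) ^ 3 / r)..(((N : ℝ) + 6) ^ 3 / r), Bw L x * |g 0 v x| ≤
    C / r * ((∑ i ∈ ({0, 2, 4} : Finset ℕ), ∑ p ∈ S (N + i), Real.log p * Bw L (p / r) * |g 0 v (p / r)|) +
      ∫ x in ((N : ℝ) ^ 3 / r)..(((N : ℝ) + 6) ^ 3 / r), Bw L x * |g 3 v x| / x)

/-- **SMR** (short-medium; adapt Pool/Agent/helper63/BA/SM.lean). uses: SBR, GTR, BA.BW. -/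
def SMR_stmt : Prop := ∀ (V : Type) [AddCommGroup V] [Module ℝ V] (g : ℕ → V → ℝ → ℝ) (C₁ κ : ℝ) (N₀ : ℕ) (S : ℕ → Finset ℕ),
  TSR V g C₁ → Den κ N₀ S →
  ∃ x₀ : ℝ, 0 < x₀ ∧ x₀ ≤ 1 ∧ ∃ C : ℝ, 0 < C ∧ ∃ q₀ : ℝ, ∀ q : ℝ, q₀ ≤ q → ∀ v : V,
  Summable (fun p : ℕ => wt S x₀ q p * |g 0 v (p / √q)|) ∧
  √q * MY (Real.log q) (g 0 v) ≤ C * ∑' p : ℕ, wt S x₀ q p * |g 0 v (p / √q)|

/-- **UWR** (short-medium; adapt Pool/Agent/helper1/BA/UW.lean). uses: GXR, BA.BW. -/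
def UWR_stmt : Prop := ∀ (V : Type) [AddCommGroup V] [Module ℝ V] (g : ℕ → V → ℝ → ℝ) (C₁ κ : ℝ) (N₀ : ℕ) (S : ℕ → Finset ℕ),
  TSR V g C₁ → Den κ N₀ S → ∃ C : ℝ, 0 < C ∧
  ∀ (L r : ℝ) (N d : ℕ) (v : V), 1 ≤ L → 0 < r → N₀ ≤ N → 1 ≤ d →
  ∑ p ∈ S N, Real.log p * Bw L (d * p / r) * |g 0 v (d * p / r)| ≤
    C * (r / d * (∫ x in (d * (N : ℝ) ^ 3 / r)..(d * ((N : ℝ) + 1) ^ 3 / r), Bw L x * |g 0 v x|) +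
      ∫ x in (d * (N : ℝ) ^ 3 / r)..(d * ((N : ℝ) + 1) ^ 3 / r), Bw L x * |g 3 v x| / x)

open Classical in
/-- **U2R** (short-medium; adapt Pool/Agent/helper83/BA/U2.lean). uses: UWR, GTR, BA.BW. -/
def U2R_stmt : Prop := ∀ (V : Type) [AddCommGroup V] [Module ℝ V] (g : ℕ → V → ℝ → ℝ) (C₁ κ : ℝ) (N₀ : ℕ) (S : ℕ → Finset ℕ) (x₀ : ℝ),
  TSR V g C₁ → Den κ N₀ S → 0 < x₀ → x₀ ≤ 1 →
  ∃ C : ℝ, 0 < C ∧ ∃ q₀ : ℝ, ∀ q : ℝ, q₀ ≤ q → ∀ (d : ℕ) (v : V), 1 ≤ d →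
  Summable (fun p : ℕ => if p ∈ PP S x₀ q ∧ d ^ 20 ≤ p then
    Real.log p * Bw (Real.log q) (d * p / √q) * |g 0 v (d * p / √q)| else 0) ∧
  ∑' p : ℕ, (if p ∈ PP S x₀ q ∧ d ^ 20 ≤ p then
    Real.log p * Bw (Real.log q) (d * p / √q) * |g 0 v (d * p / √q)| else 0) ≤
    C * (√q / d) * MY (Real.log q) (g 0 v)

open Classical in
/-- **URR** (short-medium; adapt Pool/Agent/helper1/BA/UR.lean). uses: GXR, GTR, BA.RG, BA.BW. -/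
def URR_stmt : Prop := ∀ (V : Type) [AddCommGroup V] [Module ℝ V] (g : ℕ → V → ℝ → ℝ) (C₁ x₀ : ℝ), TSR V g C₁ → 0 < x₀ →
  ∃ C : ℝ, 0 < C ∧ ∃ q₀ : ℝ, ∀ q : ℝ, q₀ ≤ q → ∀ v : V,
  Summable (fun m : ℕ => if rgz (x₀ * √q) m ∧ √q ≤ (m : ℝ) then
    Bw (Real.log q) (m / √q) * |g 0 v (m / √q)| else 0) ∧
  ∑' m : ℕ, (if rgz (x₀ * √q) m ∧ √q ≤ (m : ℝ) then
    Bw (Real.log q) (m / √q) * |g 0 v (m / √q)| else 0) ≤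
    C * (√q / Real.log q) * MY (Real.log q) (g 0 v)

open Classical in
/-- **N1R** (short-medium; adapt Pool/Agent/helper75/BA/N1.lean). uses: U2R, BA.LM, BA.LS, BA.PS, BA.BW. -/
def N1R_stmt : Prop := ∀ (V : Type) [AddCommGroup V] [Module ℝ V] (g : ℕ → V → ℝ → ℝ) (C₁ κ : ℝ) (N₀ : ℕ) (S : ℕ → Finset ℕ) (x₀ : ℝ),
  TSR V g C₁ → Den κ N₀ S → 0 < x₀ → x₀ ≤ 1 →
  ∃ C c₁ : ℝ, 0 < C ∧ 0 < c₁ ∧ ∃ q₀ : ℝ, ∀ q : ℝ, q₀ ≤ q → ∀ E : ℝ, 0 ≤ E → E * Real.log q ≤ c₁ → ∀ v : V,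
  Summable (fun m : ℕ => if 2 ≤ m ∧ ¬ m.Prime ∧ (m / gpf m) ^ 20 ≤ gpf m then
    lam (fun p => E * wt S x₀ q p) m * |g 0 v (m / √q)| else 0) ∧
  ∑' m : ℕ, (if 2 ≤ m ∧ ¬ m.Prime ∧ (m / gpf m) ^ 20 ≤ gpf m then
    lam (fun p => E * wt S x₀ q p) m * |g 0 v (m / √q)| else 0) ≤
    C * (E * Real.log q) * (E * √q) * MY (Real.log q) (g 0 v)

open Classical in
/-- **N2R** (short-medium; adapt Pool/Agent/helper1/BA/N2.lean). uses: URR, BA.P2, BA.PS, BA.LM, BA.BW. -/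
def N2R_stmt : Prop := ∀ (V : Type) [AddCommGroup V] [Module ℝ V] (g : ℕ → V → ℝ → ℝ) (C₁ κ : ℝ) (N₀ : ℕ) (S : ℕ → Finset ℕ) (x₀ : ℝ),
  TSR V g C₁ → Den κ N₀ S → 0 < x₀ → x₀ ≤ 1 →
  ∃ C c₁ : ℝ, 0 < C ∧ 0 < c₁ ∧ ∃ q₀ : ℝ, ∀ q : ℝ, q₀ ≤ q → ∀ E : ℝ, 0 ≤ E → E * Real.log q ≤ c₁ → ∀ v : V,
  Summable (fun m : ℕ => if 2 ≤ m ∧ ¬ m.Prime ∧ gpf m < (m / gpf m) ^ 20 then
    lam (fun p => E * wt S x₀ q p) m * |g 0 v (m / √q)| else 0) ∧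
  ∑' m : ℕ, (if 2 ≤ m ∧ ¬ m.Prime ∧ gpf m < (m / gpf m) ^ 20 then
    lam (fun p => E * wt S x₀ q p) m * |g 0 v (m / √q)| else 0) ≤
    C * (E * Real.log q) * (E * √q) * MY (Real.log q) (g 0 v)

/-- dual solutions (for given `x₀`, `q`, `C`) -/
def DSR (V : Type) [AddCommGroup V] [Module ℝ V] (g : ℕ → V → ℝ → ℝ) (S : ℕ → Finset ℕ) (x₀ q C : ℝ) : Prop :=
  ∀ (Ψ : ℝ) (ψ : V →ₗ[ℝ] ℝ), 0 ≤ Ψ → (∀ v, |ψ v| ≤ Ψ * (√q * MY (Real.log q) (g 0 v))) →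
  ∃ β : ℕ → ℝ, (∀ p, |β p| ≤ C * Ψ * wt S x₀ q p) ∧ ∀ v : V,
    Summable (fun p : ℕ => β p * g 0 v (p / √q)) ∧ ∑' p : ℕ, β p * g 0 v (p / √q) = ψ v

/-- nonlinear bound (for given `x₀`, `q`, `C`, `c₁`) -/
def NLR (V : Type) (g : ℕ → V → ℝ → ℝ) (S : ℕ → Finset ℕ) (x₀ q C c₁ : ℝ) : Prop := ∀ E : ℝ, 0 ≤ E → E * Real.log q ≤ c₁ → ∀ v : V,
  Summable (fun m : ℕ => lam (fun p => E * wt S x₀ q p) m * |g 0 v (m / √q)|) ∧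
  ∑' m : ℕ, (if 2 ≤ m ∧ ¬ m.Prime then lam (fun p => E * wt S x₀ q p) m * |g 0 v (m / √q)| else 0) ≤
    C * (E * Real.log q) * (E * √q) * MY (Real.log q) (g 0 v)

/-- **DNR** (short; adapt Pool/Agent/helper59/BA/DN.lean). uses: SMR, N1R, N2R, BA.HB, BA.PS, BA.LM. -/
def DNR_stmt : Prop := ∀ (V : Type) [AddCommGroup V] [Module ℝ V] (g : ℕ → V → ℝ → ℝ) (C₁ κ : ℝ) (N₀ : ℕ) (S : ℕ → Finset ℕ),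
  TSR V g C₁ → Den κ N₀ S →
  ∃ x₀ : ℝ, 0 < x₀ ∧ x₀ ≤ 1 ∧ ∃ C c₁ : ℝ, 0 < C ∧ 0 < c₁ ∧ ∃ q₀ : ℝ, 1 < q₀ ∧ ∀ q : ℝ, q₀ ≤ q →
  DSR V g S x₀ q C ∧ NLR V g S x₀ q C c₁

/-- the residual of `b` for the target functional `Θ` is at most `r` -/
def ReR (V : Type) (g : ℕ → V → ℝ → ℝ) (q : ℝ) (Θ : V → ℝ) (b : ℕ → ℝ) (r : ℝ) : Prop := ∀ v : V,
  |∑' m : ℕ, lam b m * g 0 v (m / √q) - Θ v| ≤ r * (√q * MY (Real.log q) (g 0 v))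

/-- **STR** (short-medium; adapt Pool/Agent/helper73/BA/ST.lean). uses: BA.LM. The target `τ T` is replaced by a linear functional `Θ`. -/
def STR_stmt : Prop := ∀ (V : Type) [AddCommGroup V] [Module ℝ V] (g : ℕ → V → ℝ → ℝ) (C₁ : ℝ) (S : ℕ → Finset ℕ) (x₀ q C c₁ E r : ℝ)
  (Θ : V →ₗ[ℝ] ℝ) (b : ℕ → ℝ), TSR V g C₁ → 1 < q → 0 < C → 0 < E → 0 ≤ r →
  (∀ p : ℕ, wt S x₀ q p ≠ 0 → p.Prime) → (∀ p : ℕ, 0 ≤ wt S x₀ q p) → DSR V g S x₀ q C → NLR V g S x₀ q C c₁ →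
  2 * E * Real.log q ≤ c₁ → 8 * C ^ 2 * (E * Real.log q) ≤ 1 → (∀ p, |b p| ≤ E * wt S x₀ q p) → ReR V g q Θ b r →
  ∃ b' : ℕ → ℝ, (∀ p, |b' p - b p| ≤ C * r * wt S x₀ q p) ∧
    ((∀ p, |b' p| ≤ E * wt S x₀ q p) → ReR V g q Θ b' (r / 2))

/-- **ITR** (short-medium; adapt Pool/Agent/helper73/BA/IT.lean). uses: STR, BA.LM. -/
def ITR_stmt : Prop := ∀ (V : Type) [AddCommGroup V] [Module ℝ V] (g : ℕ → V → ℝ → ℝ) (C₁ : ℝ) (S : ℕ → Finset ℕ) (x₀ q C c₁ E r : ℝ)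
  (Θ : V →ₗ[ℝ] ℝ) (b : ℕ → ℝ), TSR V g C₁ → 1 < q → 0 < C → 0 < E → 0 ≤ r →
  (∀ p : ℕ, wt S x₀ q p ≠ 0 → p.Prime) → (∀ p : ℕ, 0 ≤ wt S x₀ q p) → DSR V g S x₀ q C → NLR V g S x₀ q C c₁ →
  2 * E * Real.log q ≤ c₁ → 8 * C ^ 2 * (E * Real.log q) ≤ 1 → (∀ p, |b p| ≤ E / 2 * wt S x₀ q p) → ReR V g q Θ b r →
  4 * C * r ≤ E →
  ∃ b' : ℕ → ℝ, (∀ p, |b' p| ≤ E * wt S x₀ q p) ∧ ReR V g q Θ b' 0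

/-- **FPR** (short-medium; adapt Pool/Agent/helper73/BA/FP.lean). uses: DNR, ITR, BA.PS, BA.LM. `ψ₀ v = Θ v cT E √q - g 0 v (1/√q)`, `|Θ v| ≤ C₁ M`, `|g 0 v (1/√q)| ≤ C₁ (q^(1/40) + q^(3/10)) M` (`TSR.bd`). -/
def FPR_stmt : Prop := ∀ (V : Type) [AddCommGroup V] [Module ℝ V] (g : ℕ → V → ℝ → ℝ) (C₁ κ : ℝ) (N₀ : ℕ) (S : ℕ → Finset ℕ) (Θ : V →ₗ[ℝ] ℝ),
  TSR V g C₁ → (∀ (L : ℝ) (v : V), 1 ≤ L → |Θ v| ≤ C₁ * MY L (g 0 v)) → Den κ N₀ S →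
  ∃ x₀ : ℝ, 0 < x₀ ∧ x₀ ≤ 1 ∧ ∃ c₂ cT : ℝ, 0 < c₂ ∧ 0 < cT ∧ ∀ c : ℝ, 0 < c → c ≤ c₂ → ∃ q₀ : ℝ, 1 < q₀ ∧ ∀ q : ℝ, q₀ ≤ q →
  ∃ b : ℕ → ℝ, (∀ p, |b p| ≤ c / Real.log q * wt S x₀ q p) ∧ ∀ v : V,
    Summable (fun m : ℕ => lam b m * g 0 v (m / √q)) ∧
    ∑' m : ℕ, lam b m * g 0 v (m / √q) = Θ v * (cT * (c / Real.log q) * √q)

end Pool.Agent.TA
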