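import Pool.Agent.helper38.TA.SpecK
import Pool.Agent.helper38.TA.SpecA
import Pool.Agent.helper38.TA.SpecR
import Pool.Agent.helper70.FL.SpecZ

/-!
# Project TA, block E: from the identities to the L-functions, final statements

Rules: see SpecK.lean.
-/

set_option autoImplicit false

open Complex MeasureTheory Set
open scoped ComplexConjugate

namespace Pool.Agent.TA

open Pool.Agent.BA (Par GG kl kf vf fV Bw Den PP wt lam gpf rgz)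
open Pool.Agent.ZT (fP Bn NN Cen GF hm Sqf cmf lamA muA prm Eta NwD Cof thC LaC LfC FEQ Prs)

/-- **ZET** (short; adapt Pool/Agent/helper18/ZT/ZCE.lean, or reduce to ZT.ZCE with `T = Re ∑ a(m) vf(m/√Q)`). uses: ZT.ZCH (or ZT.ZCE, GDT). -/
def ZET_stmt : Prop := ∀ (n : ℕ) (μ : Fin n → ℝ) (t : ℕ → ℝ) (a : ℕ → ℂ) (Q : ℝ), Par 1 μ → Pool.Agent.FL.Ker μ (kf μ 0) → Cof a → 1 ≤ Q →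
  (∀ v : VT, v.2.2 = 0 → (∑' m : ℕ, a m * gT μ t 0 v (m / √Q)).re = 0) → FEQ (kf μ 0) a Q

/-- **ZVT** (medium; adapt Pool/Agent/helper65/ZT/ZCV.lean). uses: ZT.ZCH, VCD. `Λ(1/2+it) = ∫_1^∞ (Θ(x) x^(-1/2+it) + conj Θ(x) x^(-1/2-it)) dx` (FEQ, `x → 1/x` in the part `x ≤ 1`)
`= 2 Re ∑ a(m) ∫_1^∞ k(m x/√Q) x^(-1/2+it) dx`, and the last integral is `vC μ 0 t (m/√Q)` (`x = e^u`). -/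
def ZVT_stmt : Prop := ∀ (n : ℕ) (μ : Fin n → ℝ) (a : ℕ → ℂ) (Q : ℝ), Par 1 μ → Pool.Agent.FL.Ker μ (kf μ 0) → Cof a → 1 ≤ Q → FEQ (kf μ 0) a Q →
  ∀ t : ℝ, Summable (fun m : ℕ => a m * vC μ 0 t (m / √Q)) ∧
    LaC (kf μ 0) a Q ((1 / 2 : ℂ) + t * I) = ((2 * (∑' m : ℕ, a m * vC μ 0 t (m / √Q)).re : ℝ) : ℂ)

/-- **ZIT** (medium). uses: ZET, ZVT, ZT.ZCI, ZT.ZCF. `Ψ v = 0` if `v.2.2 = 0`. Let `T' = Re ∑ ω lamA(m) vf(m/√Q)`; for `v' = (c, c', τ) : ZT.VV` the identity of ZCI holds with `T'` (`gC μ 0 v' = gT μ t 0 (c, c', 0) + τ vf`; or use that `t 0 = 0` gives `gC μ 0 v' = gT μ t 0 (c, c', single 0 τ)`).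
So ZCI gives `D`. `a m = ω lamA α ε' m`: `D.L s = conj ω LfC μ (kf μ 0) a Q s` for `Re s > 1` (ZCF), hence everywhere (identity theorem, both entire: `AnalyticOnNhd.eq_of_eventuallyEq` or similar). At `s = 1/2 + i t_k`:
`|LfC| = |LaC| Q^(-1/4)/gh μ (t k)` (ZVT; `GG μ s ≠ 0`), and `2 Re ∑ a(m) vC(m/√Q) = 2 Ψ(0, 0, single k 1) T`. -/
def ZIT_stmt : Prop := ∀ n : ℕ, 1 ≤ n → ∃ K : ℝ, 0 < K ∧ ∀ (μ : Fin n → ℝ) (t : ℕ → ℝ) (α : ℕ → Fin n → ℂ) (ε' : ℕ → ℂ) (ω : ℂ) (Q T : ℝ)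
  (Ψ : VT → ℝ), Par 1 μ → t 0 = 0 → Pool.Agent.FL.Ker μ (kf μ 0) → (∀ p, p.Prime → ∀ j, ‖α p j‖ ≤ 1) → (∀ p, p.Prime → ‖ε' p‖ ≤ 1) → ‖ω‖ = 1 → 1 ≤ Q →
  Cof (fun m => ω * lamA α ε' m) → (∀ v : VT, v.2.2 = 0 → Ψ v = 0) →
  (∀ (r : ℝ) (v : VT), Ψ (r • v) = r * Ψ v) → (∀ v w : VT, Ψ (v + w) = Ψ v + Ψ w) →
  (∀ v : VT, (∑' m : ℕ, ω * lamA α ε' m * gT μ t 0 v (m / √Q)).re = Ψ v * T) →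
  ∃ D : Pool.Agent.CF.LDatum n, Pool.Agent.CF.Std 0 K D ∧ D.q = Q ∧ (∀ j, D.μ j = (μ j : ℂ)) ∧
    (∀ m : ℕ, D.a m = cmf ε' m * ∑ j, cmf (fun p => α p j) m) ∧
    (∀ s : ℂ, 1 < s.re → D.L s = LSeries (fun m => lamA α ε' m) s) ∧
    (∀ s : ℂ, (Q : ℂ) ^ (s / 2) * D.L s * ∏ j, (Gammaℝ (1 - s + (μ j : ℂ)))⁻¹ =
      conj ω ^ 2 * ((Q : ℂ) ^ ((1 - s) / 2) * conj (D.L (1 - conj s)) * ∏ j, (Gammaℝ (s + (μ j : ℂ)))⁻¹)) ∧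
    ∀ k : ℕ, ‖D.L ((1 / 2 : ℂ) + t k * I)‖ * gh μ (t k) = 2 * Q ^ (-(1 / 4) : ℝ) * |Ψ (0, 0, Finsupp.single k 1) * T|

/-- **FTT** (medium; twists; adapt Pool/Agent/helper5/ZT/FTW.lean). uses: SEQ, GVT, EXA, ZIT, ZT.DNB, ZT.CMD, BA.KER. SEQ for the family `μ χ` (`ι = DirichletCharacter ℂ F`); `(1+t_k)^7 ≤ w_k` since `n/4 - n/(200k) ≥ 7` (`n ≥ 29`); GVT for every `χ` (maximum of the constants `C`).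
`Ψ χ v = ps (μ χ) t w v.2.2`, `|ps| ≤ sg`. EXA with `V = VT`, `g χ = gT (μ χ) t`. `ω χ` a square root of `conj (w χ)`, `Q = q (cond χ)^n`. Values: `‖L(1/2+it_k)‖ = 2 Q^(-1/4) w_k c₃ √q/L^(n+2) ≥ c q^(1/4) w_k/L^(n+2)`. (`w_0 = 1 = (1+t_0)^(..)`.) -/
def FTT_stmt : Prop := ∀ n : ℕ, 29 ≤ n → ∃ K : ℝ, 0 < K ∧ ∀ (F : ℕ) [NeZero F] (μ : DirichletCharacter ℂ F → Fin n → ℝ),
  (∀ χ j, 0 ≤ μ χ j) → ∃ t : ℕ → ℝ, t 0 = 0 ∧ StrictMono t ∧ (∀ k : ℕ, (k : ℝ) ≤ t k) ∧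
  ∀ (w : DirichletCharacter ℂ F → ℂ) (α : ℕ → Fin n → ℂ) (κ₀ : ℝ) (N₀ : ℕ), (∀ χ, ‖w χ‖ = 1) →
  (∀ p, p.Prime → ∀ j, ‖α p j‖ ≤ 1) → 0 < κ₀ →
  (∀ N : ℕ, N₀ ≤ N → ∀ a : (ZMod F)ˣ, ∃ P : Finset ℕ, (∀ p ∈ P, p.Prime ∧ N ^ 3 < p ∧ p < (N + 1) ^ 3 ∧
    (p : ZMod F) = (a : ZMod F) ∧ κ₀ ≤ ‖∑ j, α p j‖) ∧ κ₀ * (N : ℝ) ^ 2 / Real.log N ≤ (P.card : ℝ)) →
  ∃ c q₀ : ℝ, 0 < c ∧ ∀ q : ℕ, q₀ ≤ q → ∃ (ε : ℕ → ℂ) (D : DirichletCharacter ℂ F → Pool.Agent.CF.LDatum n),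
    (∀ p, ‖ε p‖ = 1) ∧ ∀ χ : DirichletCharacter ℂ F, Pool.Agent.CF.Std 0 K (D χ) ∧ (D χ).q = q * χ.conductor ^ n ∧
    (∀ j, (D χ).μ j = (μ χ j : ℂ)) ∧
    (∀ p k : ℕ, p.Prime → 1 ≤ k → (D χ).a (p ^ k) = ∑ j, (prm χ p * ε p * α p j) ^ k) ∧
    (∀ s : ℂ, (((q : ℝ) * χ.conductor ^ n : ℝ) : ℂ) ^ (s / 2) * (D χ).L s * ∏ j, (Gammaℝ (1 - s + (μ χ j : ℂ)))⁻¹ =
      w χ * ((((q : ℝ) * χ.conductor ^ n : ℝ) : ℂ) ^ ((1 - s) / 2) * conj ((D χ).L (1 - conj s)) * ∏ j, (Gammaℝ (s + (μ χ j : ℂ)))⁻¹)) ∧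
    ∀ k : ℕ, c * (q : ℝ) ^ (1 / 4 : ℝ) / Real.log q ^ (n + 2) * (1 + t k) ^ ((n : ℝ) / 4 - n / (200 * k)) ≤ ‖(D χ).L ((1 / 2 : ℂ) + t k * I)‖

/-- **RZV** (medium). uses: ZVT, ZT.ZCF, BA.LM. `a m = (lam b m : ℂ)`: `Cof a` (`|lam b m| ≤ 1`), FEQ: `FL.FE` gives `e^(u/2) Θ(e^u) = e^(-u/2) Θ(e^(-u))`, `Θ` real. `D.L = LfC μ (kf μ 0) a q` for `Re s > 1` (ZCF), so everywhere. ZVT; `vC` enters by its real part (`lam b m` real). -/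
def RZV_stmt : Prop := ∀ (n : ℕ) (μ : Fin n → ℝ) (b : ℕ → ℝ) (q : ℕ) (L : ℂ → ℂ), Par 1 μ → Pool.Agent.FL.Ker μ (kf μ 0) →
  Pool.Agent.FL.Coef (lam b) → 1 ≤ q → Pool.Agent.FL.FE (kf μ 0) (lam b) q → Differentiable ℂ L →
  (∀ s : ℂ, 1 < s.re → L s = LSeries (fun m => (lam b m : ℂ)) s) → ∀ t : ℝ,
  ‖L ((1 / 2 : ℂ) + t * I)‖ * gh μ t = 2 * (q : ℝ) ^ (-(1 / 4) : ℝ) * |∑' m : ℕ, lam b m * (vC μ 0 t (m / √q)).re|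

/-- **FRT** (medium; real coefficients; adapt Pool/Agent/helper38/BA/FIN.lean). uses: SEQ, GVR, FPR, RZV, VCD, GDT, BA.SE, BA.PS, BA.LM, BA.KER, FL.ZFI. SEQ for one `μ`; `(1+t_k)^3 ≤ w_k` (`n ≥ 13`). `Θ v = ps μ t w v.2`, `|ps| ≤ sg`. FPR. `c` as in FIN (small, because of `K`).
Values: RZV and the identity for `v = (0, single k 1)`: `‖L(1/2+it_k)‖ gh = 2 q^(-1/4) w_k gh cT (c/log q) √q`. Central value: as in FIN (`t_0 = 0`, `w_0 = 1`, `vC μ 0 0 = vf`, positive). -/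
def FRT_stmt : Prop := ∀ (n : ℕ) (μ : Fin n → ℝ), Par 13 μ → ∃ t : ℕ → ℝ, t 0 = 0 ∧ StrictMono t ∧ (∀ k : ℕ, (k : ℝ) ≤ t k) ∧
  ∀ K : ℝ, 0 < K → ∃ c : ℝ, 0 < c ∧ ∃ q₀ : ℕ, ∀ q : ℕ, q₀ ≤ q →
  ∃ D : Pool.Agent.CF.LDatum n, Pool.Agent.CF.Std 0 K D ∧ D.q = q ∧ (∀ j, D.μ j = (μ j : ℂ)) ∧
    (∃ b : ℕ → ℝ, (∀ p, |b p| ≤ 1) ∧ ∀ p k : ℕ, p.Prime → D.a (p ^ k) = ((b p ^ k : ℝ) : ℂ)) ∧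
    (∀ s : ℂ, (q : ℂ) ^ (s / 2) * D.L s * ∏ j, (Gammaℝ (1 - s + (μ j : ℂ)))⁻¹ =
      (q : ℂ) ^ ((1 - s) / 2) * D.L (1 - s) * ∏ j, (Gammaℝ (s + (μ j : ℂ)))⁻¹) ∧
    ∀ k : ℕ, ‖D.L ((1 / 2 : ℂ) + t k * I)‖ = c * (q : ℝ) ^ (1 / 4 : ℝ) / Real.log q * (1 + t k) ^ ((n : ℝ) / 4 - n / (200 * k))

end Pool.Agent.TA
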