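import Pool.Agent.helper38.TA.Defs

/-!
# Project TA, block K: the functions `V_t`, the dual functions, sparse heights

Rules: file `Pool/Agent/<seat>/TA/XX.lean`, import this file, namespace `Pool.Agent.TA`, `theorem XX (h : YY_stmt) ... : XX_stmt`;
auxiliary lemmas start with `XX_`. The statements named after uses are hypotheses; those of `Pool.Agent.BA` and `Pool.Agent.ZT` are
all proved (closed theorems `Pool.Agent.BA.a_XX`, `Pool.Agent.BA.GI`, ... in Pool/Agent/helper38/BA/All.lean and `Pool.Agent.ZT.zt_XX` in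
Pool/Agent/helper38/ZT/All.lean) and may be used directly by importing the file which proves them, or as hypotheses.
-/

set_option autoImplicit false

open Complex MeasureTheory Set

namespace Pool.Agent.TA

open Pool.Agent.BA (Par GG kl kf vf fV Bw Den PP wt lam gpf rgz)
open Pool.Agent.ZT (fP Bn NN Cen GF hm Sqf cmf lamA muA prm Eta NwD Cof thC LaC LfC FEQ Prs)

/-! ## Gamma functions on vertical lines -/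

/-- **STG** (short-medium). Proof. `σ = 1/2`: `|Γ(1/2+iτ)|² = π/cosh(πτ)` (`Complex.Gamma_mul_Gamma_one_sub`, `Complex.Gamma_conj`), `e^|x|/2 ≤ cosh x ≤ e^|x|`.
`Pool.Agent.SC.GR Pool.Agent.SC.GRA : Pool.Agent.SC.GR_stmt` (closed, two-sided: `‖Γ(w+h)‖` is `‖w‖^h ‖Γ w‖` up to a constant, `Re w ≥ 1/8`, `0 ≤ h ≤ 1`) gives all `σ ≥ 1/2`
in steps of length `≤ 1`; `‖w‖` is `1 + |τ|` up to a constant. `0 < σ < 1/2`: `Γ(σ+iτ) = Γ(σ+1+iτ)/(σ+iτ)`. -/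
def STG_stmt : Prop := ∀ σ : ℝ, 0 < σ → ∃ C : ℝ, 1 ≤ C ∧ ∀ τ : ℝ,
  C⁻¹ * ((1 + |τ|) ^ (σ - 1 / 2) * Real.exp (-(Real.pi / 2 * |τ|))) ≤ ‖Complex.Gamma ((σ : ℂ) + τ * I)‖ ∧
  ‖Complex.Gamma ((σ : ℂ) + τ * I)‖ ≤ C * ((1 + |τ|) ^ (σ - 1 / 2) * Real.exp (-(Real.pi / 2 * |τ|)))

/-- **GGS** (short-medium). uses: STG. `Gammaℝ s = π^(-s/2) Γ(s/2)`, `s = σ + μ_j + iτ`: `‖Gammaℝ‖` is `(1+|τ/2|)^((σ+μ_j)/2 - 1/2) e^(-π|τ|/4)` up to a constant, and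
`1 + |τ/2|` is `1 + |τ|` up to a factor 2. Product over `j`. -/
def GGS_stmt : Prop := ∀ (n : ℕ) (μ : Fin n → ℝ) (σ : ℝ), Par 1 μ → 0 < σ → ∃ C : ℝ, 1 ≤ C ∧ ∀ τ : ℝ,
  C⁻¹ * ((1 + |τ|) ^ ((n * (σ - 1) + ∑ j, μ j) / 2) * Real.exp (-(Real.pi / 4 * n * |τ|))) ≤ ‖GG μ ((σ : ℂ) + τ * I)‖ ∧
  ‖GG μ ((σ : ℂ) + τ * I)‖ ≤ C * ((1 + |τ|) ^ ((n * (σ - 1) + ∑ j, μ j) / 2) * Real.exp (-(Real.pi / 4 * n * |τ|)))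

/-- **CHG** (short-medium). uses: GGS. `1 - (1/20 + it) = 19/20 + i(-t)`. The quotient is `≤ C (1+|t|)^(-9n/20)` and `j - 9n/20 < -1`. Measurability: `GG` is continuous on `Re s > 0` and
does not vanish there (see Pool/Agent/helper89/BA/CH.lean, Pool/Agent/helper58/ZT/CH7.lean). -/
def CHG_stmt : Prop := ∀ (n j : ℕ) (μ : Fin n → ℝ), Par 1 μ → 20 * (j + 1) < 9 * n →
  Integrable (fun t : ℝ => ‖((1 / 20 : ℝ) : ℂ) + t * I‖ ^ j *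
    ‖GG μ (((1 / 20 : ℝ) : ℂ) + t * I) / GG μ (1 - (((1 / 20 : ℝ) : ℂ) + t * I))‖)

/-! ## The functions `V_t` -/

/-- **MKJ** (short-medium). uses: BA.KB, BA.KC, BA.KD. Induction on `j`: `kf μ (j+1) x = x (kf μ j)'(x)`, integrate `∫ x^(s-1) kf μ (j+1) x dx = ∫ x^s (kf μ j)' dx` by parts
(`integral_Ioi_mul_deriv_eq_deriv_mul` or a version with limits; the boundary terms vanish by KC with exponents `< Re s` at 0 and `> Re s` at infinity): `-s mellin (kf μ j) s`. -/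
def MKJ_stmt : Prop := ∀ (n j : ℕ) (μ : Fin n → ℝ), Par 1 μ → ∀ s : ℂ, 0 < s.re →
  MellinConvergent (fun x => (kf μ j x : ℂ)) s ∧ mellin (fun x => (kf μ j x : ℂ)) s = (-s) ^ j * GG μ s

/-- **VCD** (medium). uses: BA.KC, BA.KD. As BA.VD (Pool/Agent/helper72/BA/VD.lean) with the factor `e^(itu)` of absolute value 1; the constant of the decay does not depend on `t`. -/
def VCD_stmt : Prop := ∀ (n j : ℕ) (μ : Fin n → ℝ), Par 1 μ →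
  (∀ t x : ℝ, 0 < x → IntegrableOn (fun u : ℝ => Complex.exp (((t * u : ℝ) : ℂ) * I) *
      ((Real.exp (u / 2) * kf μ j (x * Real.exp u) : ℝ) : ℂ)) (Ioi 0) ∧
    HasDerivAt (vC μ j t) (vC μ (j + 1) t x / x) x) ∧
  (∀ σ : ℝ, 1 / 2 < σ → ∃ C : ℝ, 0 < C ∧ ∀ t x : ℝ, 0 < x → ‖vC μ j t x‖ ≤ C * x ^ (-σ)) ∧
  (∀ x : ℝ, vC μ j 0 x = (vf μ j x : ℂ)) ∧
  ∀ t x : ℝ, vC μ j (-t) x = (starRingEnd ℂ) (vC μ j t x)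

/-- **VCS** (medium). uses: MKJ, VCD, BA.KC, BA.KD. `∫_(-∞)^∞ e^(itu) e^(u/2) kf μ j (x e^u) du = x^(-(1/2+it)) mellin (kf μ j) (1/2+it)` (substitution `y = x e^u`), split at `u = 0`, `u → -u` in the negative part. -/
def VCS_stmt : Prop := ∀ (n j : ℕ) (μ : Fin n → ℝ), Par 1 μ → ∀ t x : ℝ, 0 < x →
  IntegrableOn (fun u : ℝ => Complex.exp (-(((t * u : ℝ) : ℂ) * I)) *
    ((Real.exp (-u / 2) * kf μ j (x * Real.exp (-u)) : ℝ) : ℂ)) (Ioi 0) ∧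
  vC μ j t x = (-((1 / 2 : ℂ) + t * I)) ^ j * GG μ ((1 / 2 : ℂ) + t * I) * (x : ℂ) ^ (-((1 / 2 : ℂ) + t * I)) -
    ∫ u in Ioi (0 : ℝ), Complex.exp (-(((t * u : ℝ) : ℂ) * I)) * ((Real.exp (-u / 2) * kf μ j (x * Real.exp (-u)) : ℝ) : ℂ)

/-- **VCL** (medium). uses: BA.KD, BA.GI, BA.KB, VCD. First: `kf μ j y = kl μ j σ y` (BA.KD) and Fubini (`|e^(-u/2 + σu)|` and `GG` are integrable): `∫_0^∞ e^(-itu - u/2 + us) du = 1/(1/2 + it - s)`, `s = σ + iτ`, `σ < 1/2`.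
Second: Fubini, `∫ x^(z-1) k(x e^u) dx = e^(-uz) GG(z)`, `∫_0^∞ e^(itu + u/2 - uz) du = 1/(z - 1/2 - it)`. -/
def VCL_stmt : Prop := ∀ (n j : ℕ) (μ : Fin n → ℝ), Par 1 μ →
  (∀ t x σ : ℝ, 0 < x → 0 < σ → σ < 1 / 2 →
    ∫ u in Ioi (0 : ℝ), Complex.exp (-(((t * u : ℝ) : ℂ) * I)) * ((Real.exp (-u / 2) * kf μ j (x * Real.exp (-u)) : ℝ) : ℂ) =
    -(((1 / (2 * Real.pi) : ℝ) : ℂ) * ∫ τ : ℝ, (-((σ : ℂ) + τ * I)) ^ j * GG μ ((σ : ℂ) + τ * I) *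
      (x : ℂ) ^ (-((σ : ℂ) + τ * I)) * (((σ : ℂ) + τ * I) - ((1 / 2 : ℂ) + t * I))⁻¹)) ∧
  ∀ (t : ℝ) (z : ℂ), 1 / 2 < z.re → MellinConvergent (vC μ 0 t) z ∧
    mellin (vC μ 0 t) z = GG μ z * (z - ((1 / 2 : ℂ) + t * I))⁻¹

/-- **GDT** (short-medium). uses: VCD, BA.FD, ZT.FDP. Derivatives, decay and linearity of `gT` and `gR` (as ZT.GDC, Pool/Agent/helper43/ZT/GDC.lean), and `gR μ t j (c, τ) = Re gT μ t j (c, 0, τ)`. -/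
def GDT_stmt : Prop := ∀ (n j : ℕ) (μ : Fin n → ℝ) (t : ℕ → ℝ), Par 1 μ →
  ((∀ (v : VT) (x : ℝ), 0 < x → HasDerivAt (gT μ t j v) (gT μ t (j + 1) v x / x) x) ∧
  (∀ (v : VT) (σ : ℝ), 1 / 2 < σ → ∃ C : ℝ, ∀ x : ℝ, 0 < x → ‖gT μ t j v x‖ ≤ C * x ^ (-σ)) ∧
  (∀ (v w : VT) (x : ℝ), gT μ t j (v + w) x = gT μ t j v x + gT μ t j w x) ∧
  ∀ (c : ℝ) (v : VT) (x : ℝ), gT μ t j (c • v) x = (c : ℂ) * gT μ t j v x) ∧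
  ((∀ (v : VR) (x : ℝ), 0 < x → HasDerivAt (gR μ t j v) (gR μ t (j + 1) v x / x) x) ∧
  (∀ (v : VR) (σ : ℝ), 1 / 2 < σ → ∃ C : ℝ, ∀ x : ℝ, 0 < x → |gR μ t j v x| ≤ C * x ^ (-σ)) ∧
  (∀ (v w : VR) (x : ℝ), gR μ t j (v + w) x = gR μ t j v x + gR μ t j w x) ∧
  ∀ (c : ℝ) (v : VR) (x : ℝ), gR μ t j (c • v) x = c * gR μ t j v x) ∧
  ∀ (v : VR) (x : ℝ), gR μ t j v x = (gT μ t j (v.1, 0, v.2) x).re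

/-- **LAT** (medium, long; the key lemma). uses: CHG, VCS, VCL, VCD, GDT, BA.KB, BA.KD, BA.FD, BA.GI, ZT.FDP. As BA.LA and ZT.LA7 (Pool/Agent/helper17/BA/LA.lean, Pool/Agent/helper43/ZT/LA7.lean; the Mellin transforms and the
line formulas of `fV`, `fP` are there). `s = 1/20 + iτ`, `ρ_k = 1/2 + i t_k`. Real part `R_j = Re gT μ t j v`: `Re V_t = (V_t + V_(-t))/2` (VCD), `P(s) = ∑ c(u) (e^(u/2-us) - e^(-u/2+us)) + ∑ (τ_k/2) ((s - ρ_k)⁻¹ + (s - conj ρ_k)⁻¹)`,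
`P(1-s) = -P(s)`. `mellin R_0 z = GG(z) P(z)` for `Re z > 1/2` (VCL), and `R_j(x) = ∑ τ_k Re((-ρ_k)^j GG(ρ_k) x^(-ρ_k)) + (1/2π) ∫ (-s)^j GG(s) P(s) x^(-s) dτ` (VCS, VCL). Now
`GG(s) P(s) = -(GG(s)/GG(1-s)) mellin R_0 (1-s)`, `|mellin R_0 (1-s)| ≤ ∫ y^(-1/20) |R_0|`, and CHG. Imaginary part: `Im V_t = (V_t - V_(-t))/(2i)`, `P(s) = ∑ c'(u) (e^(u/2-us) + e^(-u/2+us)) +
∑ (τ_k/2i) ((s - ρ_k)⁻¹ - (s - conj ρ_k)⁻¹)`, `P(1-s) = P(s)`. (`conj (GG(s)) = GG(conj s)`.) -/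
def LAT_stmt : Prop := ∀ (n J : ℕ) (μ : Fin n → ℝ), Par 1 μ → 20 * (J + 1) < 9 * n → ∃ C : ℝ, 0 < C ∧ ∀ j : ℕ, j ≤ J →
  ∀ (t : ℕ → ℝ) (v : VT) (x : ℝ), 0 < x →
  |(gT μ t j v x).re| ≤ C * x ^ (-(1 / 20) : ℝ) * (∫ y in Ioi (0 : ℝ), y ^ (-(1 / 20) : ℝ) * |(gT μ t 0 v y).re|) +
    x ^ (-(1 / 2) : ℝ) * v.2.2.sum (fun k a => |a| * ‖(1 / 2 : ℂ) + t k * I‖ ^ j * gh μ (t k)) ∧
  |(gT μ t j v x).im| ≤ C * x ^ (-(1 / 20) : ℝ) * (∫ y in Ioi (0 : ℝ), y ^ (-(1 / 20) : ℝ) * |(gT μ t 0 v y).im|) +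
    x ^ (-(1 / 2) : ℝ) * v.2.2.sum (fun k a => |a| * ‖(1 / 2 : ℂ) + t k * I‖ ^ j * gh μ (t k))

/-! ## Dual functions -/

/-- **PKA** (medium). uses: BA.KB, BA.KC, BA.KD. `k = kf μ 0`. Even: substitute `y = z e^(-a)`: `e^(a/2) ∫ k(y) k(y e^a) dy = e^(-a/2) ∫ k(z e^(-a)) k(z) dz`. Decay: KC: `k(y e^a) ≤ C (y e^a)^(-3/4)` and `∫ k(y) y^(-3/4) dy < ∞`, so `|K(a)| ≤ C e^(-a/4)`, and `K` is even.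
Fourier transform: `∫ K(a) cos(ta) da = Re ∫∫ k(y) k(y e^a) e^(a/2 + ita) da dy` (Fubini), the inner integral is `y^(-1/2-it) GG(1/2+it)`, `∫ k(y) y^(-1/2-it) dy = GG(1/2-it) = conj GG(1/2+it)`. -/
def PKA_stmt : Prop := ∀ (n : ℕ) (μ : Fin n → ℝ), Par 1 μ →
  Continuous (Kc μ) ∧ (∀ a : ℝ, Kc μ (-a) = Kc μ a) ∧ (∃ C : ℝ, ∀ a : ℝ, |Kc μ a| ≤ C * Real.exp (-|a| / 4)) ∧
  ∀ t : ℝ, ∫ a : ℝ, Kc μ a * Real.cos (t * a) = gh μ t ^ 2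

/-- **PHB** (medium). uses: GGS, BA.KB, BA.KC, BA.KD, BA.GI. By BA.KD and Fubini `ph μ t x = (4/√(2π)) (1/2π) ∫ GG(s) x^(-s) R(s) dτ`, `s = η + iτ`, `R(s) = ∫ cos(tu) e^(-u²/2) e^((1/2-s)u) du = (√(2π)/2) (e^((1/2-s+it)²/2) + e^((1/2-s-it)²/2))`
(Mathlib: `fourierIntegral_gaussian` / `integral_cexp_quadratic`), so `|R| ≤ C (e^(-(τ-t)²/2) + e^(-(τ+t)²/2))`. GGS at `σ = η`: `|GG(η+iτ)| ≤ C (1+|τ|)^A e^(-πn|τ|/4)`, and `(1+|τ|)^A e^(-πn|τ|/4) ≤ (1+t)^A e^(-πnt/4) (1+|τ∓t|)^|A| e^(πn|τ∓t|/4)`, and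
the integral over `τ` converges. GGS (lower bound) at `1/2`; the exponents differ by `n(1/2-η)/2`. Decay and continuity: `|φ(x)| ≤ C ∫ e^(-u²/2 + u/2) (x e^u)^(-σ) du`. -/
def PHB_stmt : Prop := ∀ (n : ℕ) (μ : Fin n → ℝ), Par 1 μ →
  (∀ t : ℝ, ContinuousOn (ph μ t) (Ioi 0) ∧ ∀ σ : ℝ, 0 < σ → ∃ C : ℝ, ∀ x : ℝ, 0 < x → |ph μ t x| ≤ C * x ^ (-σ)) ∧
  ∀ η : ℝ, 0 < η → η < 1 / 2 → ∃ C : ℝ, 0 < C ∧ ∀ t x : ℝ, 0 ≤ t → 0 < x →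
    |ph μ t x| ≤ C * (1 + t) ^ (-(n * (1 / 2 - η) / 2) : ℝ) * gh μ t * x ^ (-η)

/-- **PHC** (medium). uses: PKA, PHB, VCD, BA.KC, BA.KD, BA.FD. `Ψ(w) = e^(w/2) ∫ φ_(t₀)(x) k(x e^w) dx = c₀ ∫ ρ(u) Kc(w - u) du`, `ρ(u) = cos(t₀ u) e^(-u²/2)`, `c₀ = 4/√(2π)` (Fubini, `x = y e^(-u)`), is even. So `∫ φ fV = ∑ c(u) (Ψ(u) - Ψ(-u)) = 0`, and
`∫ φ Re V_t = ∫_0^∞ cos(tw) Ψ(w) dw = (1/2) ∫ cos(tw) Ψ(w) dw = (c₀/2) (∫ ρ(u) cos(tu) du) (∫ Kc(a) cos(ta) da)` (Fubini, `cos(t(u+a))`, the `sin sin` part vanishes because `ρ`, `Kc` are even), `∫ cos(t₀u) cos(tu) e^(-u²/2) du = (√(2π)/2) ga t t₀`. -/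
def PHC_stmt : Prop := ∀ (n : ℕ) (μ : Fin n → ℝ), Par 1 μ → ∀ t₀ : ℝ,
  (∀ c : ℝ →₀ ℝ, IntegrableOn (fun x => ph μ t₀ x * fV μ 0 c x) (Ioi 0) ∧ ∫ x in Ioi (0 : ℝ), ph μ t₀ x * fV μ 0 c x = 0) ∧
  ∀ t : ℝ, IntegrableOn (fun x => ph μ t₀ x * (vC μ 0 t x).re) (Ioi 0) ∧
    ∫ x in Ioi (0 : ℝ), ph μ t₀ x * (vC μ 0 t x).re = ga t t₀ * gh μ t ^ 2

/-- **BNE** (short). `x ≤ 1`: `Bn = x^(-1/20) ≥ x^(-η)`. `x = e^t ≥ 1`, `L ≥ 1`: `(1 + t/L)^(n+2) e^(-ηt) ≤ (1+t)^(n+2) e^(-ηt)` is bounded. -/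
def BNE_stmt : Prop := ∀ (n : ℕ) (η : ℝ), 0 < η → η ≤ 1 / 20 → ∃ C : ℝ, 0 < C ∧ ∀ L x : ℝ, 1 ≤ L → 0 < x →
  x ^ (-η) ≤ C * Bn n L x

/-- **TAU** (medium). uses: PHC, PHB, GDT, ZT.BNW. `a_k = gh μ (t k)`, `N_k = w_k |τ_k| a_k`, `M = ∫ Bn |Re gT|` (integrable: decay with `σ = 3/5` at 0, `σ = 2` at infinity, as in GVC). PHC: `∫ φ_k Re gT = ∑_j τ_j ga (t j) (t k) a_j²`, `ga (t k) (t k) ≥ 1`,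
`ga (t j) (t k) ≤ 2 e^(-(t_j-t_k)²/2)` (`t ≥ 0`). s1: `|∫ φ_k Re gT| ≤ D 2^(-k) (a_k/w_k) M`. Multiply by `w_k/a_k`: `N_k ≤ D 2^(-k) M + ∑_(j≠k) N_j 4^(-max(j,k)-1)` (s2). Sum over `k` in the support: `S ≤ 2 D M + S sup_j (j 4^(-j-1) + 4^(-j-1)/3) ≤ 2 D M + S/2`. -/
def TAU_stmt : Prop := ∀ (n : ℕ) (μ : Fin n → ℝ) (t w : ℕ → ℝ) (D : ℝ), Par 1 μ → Sps μ t w D → ∀ (L : ℝ) (v : VT), 1 ≤ L →
  IntegrableOn (fun x => Bn n L x * |(gT μ t 0 v x).re|) (Ioi 0) ∧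
  sg μ t w v.2.2 ≤ 4 * D * ∫ x in Ioi (0 : ℝ), Bn n L x * |(gT μ t 0 v x).re|

/-- **SEQ** (medium, long). uses: GGS, PHB, BNE. Recursion on `k`: `t_0 = 0`; given `t_0, ..., t_(k-1)` every large `t_k` is admissible, for all `i` at once (`ι` finite). `η_k = 1/(200k)`, `w_k = (1+t_k)^(n/4 - n/(200k))`, `a_k = gh`.
s1: PHB and BNE: `w_k |ph| ≤ (1+t_k)^(-n/(400k)) C C' a_k Bn ≤ 2^(-k) a_k Bn` for large `t_k` (`k = 0`: `D = C C'` with `η = 1/20`; `D = 1` for the others, take the maximum). s2 (`j < k`): `a_k ≥ c (1+t_k)^(-B) e^(-πn t_k/4)` (GGS), so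
`2 w_k a_j e^(-(t_k-t_j)²/2)/(w_j a_k) → 0` as `t_k → ∞`; and `2 w_j a_k e^(-(t_k-t_j)²/2)/(w_k a_j) → 0` (`a_k` is bounded). Also `t_k ≥ k`, `t_k > t_(k-1)`. -/
def SEQ_stmt : Prop := ∀ (ι : Type) [Fintype ι] (n : ℕ) (μ : ι → Fin n → ℝ), (∀ i, Par 1 (μ i)) →
  ∃ t w : ℕ → ℝ, (∀ k : ℕ, (k : ℝ) ≤ t k) ∧ StrictMono t ∧ w 0 = 1 ∧
    (∀ k : ℕ, 1 ≤ k → w k = (1 + t k) ^ ((n : ℝ) / 4 - n / (200 * k))) ∧ ∀ i, ∃ D : ℝ, Sps (μ i) t w D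

/-- **GVT** (medium). uses: LAT, GDT, TAU, ZT.BNW. As ZT.GVC (Pool/Agent/helper14/ZT/GVC.lean). `M = MX`. `∫ y^(-1/20) |Re gT| ≤ C ∫ Bn |Re gT| ≤ C M` (BNW; `|Re|, |Im| ≤ ‖ ‖`). TAU: `∑ |τ_k| w_k gh ≤ 4 D M`, and `‖1/2 + i t_k‖^j ≤ (1+t_k)^7 ≤ w_k`;
`x^(-1/2) ≤ x^(-1/20) + x^(-3/5)`; LAT with `J = 7` (`160 < 9 · 29`). -/
def GVT_stmt : Prop := ∀ (n : ℕ) (μ : Fin n → ℝ) (t w : ℕ → ℝ) (D : ℝ), Par 29 μ → Sps μ t w D → (∀ k, (1 + t k) ^ 7 ≤ w k) →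
  ∃ C : ℝ, TSC n VT (gT μ t) C ∧ ∀ (L : ℝ) (v : VT), 1 ≤ L → sg μ t w v.2.2 ≤ C * MX n L (gT μ t 0 v)

/-- **GVR** (medium). uses: LAT, GDT, TAU, ZT.BNW, BA.BW. As GVT, real part only: `v = (c, τ)`, `gR μ t j v = Re gT μ t j (c, 0, τ)`, `Bn ≤ Bw`, `y^(-1/20) ≤ 300 Bw`, `J = 3` (`80 < 9 · 13`). -/
def GVR_stmt : Prop := ∀ (n : ℕ) (μ : Fin n → ℝ) (t w : ℕ → ℝ) (D : ℝ), Par 13 μ → Sps μ t w D → (∀ k, (1 + t k) ^ 3 ≤ w k) →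
  ∃ C : ℝ, TSR VR (gR μ t) C ∧ ∀ (L : ℝ) (v : VR), 1 ≤ L → sg μ t w v.2 ≤ C * MY L (gR μ t 0 v)

end Pool.Agent.TA
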